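import Pool.Agent.H482R3.EA.Stm

set_option autoImplicit false

/-! Project EA, task ADMC: admissibility of a syllable is a computable predicate. -/

namespace Pool.Agent.H484R2.EAADMC

open Pool.Agent.H482R3.EA

section tools

variable {α β γ : Type} [Primcodable α] [Primcodable β] [Primcodable γ]

theorem cp_comp {p : β → Prop} {f : α → β} (hp : ComputablePred p) (hf : Computable f) :
    ComputablePred (fun x => p (f x)) := by
  obtain ⟨d, h⟩ := hp
  exact ⟨fun x => d (f x), h.comp hf⟩

theorem cp_const (P : Prop) : ComputablePred (fun _ : α => P) := by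
  classical
  exact ⟨fun _ => inferInstance, Computable.const _⟩

theorem cp_sum {p : α → β → Prop} {q : α → γ → Prop}
    (hp : ComputablePred (fun x : α × β => p x.1 x.2))
    (hq : ComputablePred (fun x : α × γ => q x.1 x.2)) :
    ComputablePred (fun x : α × (β ⊕ γ) => Sum.elim (p x.1) (q x.1) x.2) := by
  classical
  rw [ComputablePred.computable_iff] at hp hq ⊢
  obtain ⟨f, hf, hf'⟩ := hp
  obtain ⟨g, hg, hg'⟩ := hq
  refine ⟨fun x => Sum.casesOn (motive := fun _ => Bool) x.2 (fun b => f (x.1, b))
    (fun c => g (x.1, c)), ?_, ?_⟩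
  · exact Computable.sumCasesOn Computable.snd
      (hf.comp ((Computable.fst.comp Computable.fst).pair Computable.snd)).to₂
      (hg.comp ((Computable.fst.comp Computable.fst).pair Computable.snd)).to₂
  · funext ⟨x, y⟩
    cases y with
    | inl b => exact congrFun hf' (x, b)
    | inr c => exact congrFun hg' (x, c)

theorem cp_eq {f : α → β} (hf : Computable f) (b : β) [DecidableEq β] :
    ComputablePred (fun x => f x = b) :=
  cp_comp (p := fun y : β => y = b)
    (PrimrecRel.comp Primrec.eq Primrec.id (Primrec.const b)).computablePred hf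

end tools

theorem comp_gOf (a b : ℕ) : Computable (gOf : Option (Syl (Fin a) (Fin b)) → W (Fin b)) := by
  have h1 : Computable (fun t : (W (Fin b) × W (Fin a)) ⊕ (W (Fin b) × Fin a × Fin b × W ℕ) =>
      (Sum.casesOn (motive := fun _ => W (Fin b)) t (fun u => u.1) (fun u => u.1) :
        W (Fin b))) :=
    Computable.sumCasesOn Computable.id (Computable.fst.comp Computable.snd).to₂
      (Computable.fst.comp Computable.snd).to₂
  have h2 : Computable (fun t : Syl (Fin a) (Fin b) =>
      (Sum.casesOn (motive := fun _ => W (Fin b)) t (fun u => u.1)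
        (fun t => Sum.casesOn (motive := fun _ => W (Fin b)) t (fun u => u.1) (fun u => u.1)) :
        W (Fin b))) :=
    Computable.sumCasesOn Computable.id (Computable.fst.comp Computable.snd).to₂
      (h1.comp Computable.snd).to₂
  have h3 : Computable (fun s : Option (Syl (Fin a) (Fin b)) =>
      (Option.casesOn (motive := fun _ => W (Fin b)) s [] (fun t =>
        Sum.casesOn (motive := fun _ => W (Fin b)) t (fun u => u.1)
        (fun t => Sum.casesOn (motive := fun _ => W (Fin b)) t (fun u => u.1)
          (fun u => u.1))) : W (Fin b))) :=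
    Computable.option_casesOn Computable.id (Computable.const _) (h2.comp Computable.snd).to₂
  refine h3.of_eq fun s => ?_
  rcases s with _ | (u | (u | u)) <;> rfl

theorem t_ADMC (hB : S_BAS) (hP : S_CP) (hN : S_NEARC) (hI : S_INDC) (hM : S_MEETC) (h1 : S_C1)
    (h2 : S_C2) : S_ADMC := by
  intro a b c hcr hV hW
  have cand : ∀ {α : Type} [Primcodable α] {p q : α → Prop}, ComputablePred p →
      ComputablePred q → ComputablePred (fun x => p x ∧ q x) :=
    fun {α} _ {p q} hp hq => (hP α inferInstance 0).1 p q hp hq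
  have cor : ∀ {α : Type} [Primcodable α] {p q : α → Prop}, ComputablePred p →
      ComputablePred q → ComputablePred (fun x => p x ∨ q x) :=
    fun {α} _ {p q} hp hq => (hP α inferInstance 0).2.1 p q hp hq
  have call : ∀ {α : Type} [Primcodable α] {n : ℕ} {p : Fin n → α → Prop},
      (∀ i, ComputablePred (p i)) → ComputablePred (fun x => ∀ i, p i x) :=
    fun {α} _ {n p} hp => (hP α inferInstance n).2.2.1 p hp
  have cex : ∀ {α : Type} [Primcodable α] {n : ℕ} {p : Fin n → α → Prop},
      (∀ i, ComputablePred (p i)) → ComputablePred (fun x => ∃ i, p i x) :=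
    fun {α} _ {n p} hp => (hP α inferInstance n).2.2.2 p hp
  obtain ⟨invA, filA, -⟩ := hB a
  obtain ⟨invB, filB, cntB⟩ := hB b
  -- points
  have P1 : ComputablePred (fun x : Option (Syl (Fin a) (Fin b)) ×
      (W (Fin b) × Fin a × Bool × ℕ) => x.2.2.2.2 ≠ 0 ∧ ¬ NearW c x.2.1 x.2.2.1 x.1) := by
    refine cand ?_ ?_
    · exact (cp_eq (Computable.snd.comp (Computable.snd.comp
        (Computable.snd.comp Computable.snd))) 0).not
    · refine ComputablePred.not ?_
      exact cp_comp (hN a b c hW) (((Computable.fst.comp Computable.snd).pair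
        (Computable.fst.comp (Computable.snd.comp Computable.snd))).pair Computable.fst)
  -- lines of the first kind
  have P2 : ComputablePred (fun x : Option (Syl (Fin a) (Fin b)) × (W (Fin b) × W (Fin a)) =>
      ¬ InDB c x.2.1 x.1 ∧
      (((∀ v, ¬ NearW c x.2.1 v x.1) ∧ ∀ v, ¬ Triv (cV c) (x.2.2 ++ inv (fil v x.2.2))) ∨
       (∃ v, NearW c x.2.1 v x.1 ∧ ¬ Triv (cV c) (x.2.2 ++ inv (fil v x.2.2)) ∧
          ∀ v', v' ≠ v → ¬ Triv (cV c) (inv (fil v x.2.2) ++ x.2.2 ++ inv (fil v' x.2.2))))) := by
    have cy : Computable (fun x : Option (Syl (Fin a) (Fin b)) × (W (Fin b) × W (Fin a)) =>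
      x.2.2) := Computable.snd.comp Computable.snd
    have cf : ∀ v : Fin a, Computable (fun x : Option (Syl (Fin a) (Fin b)) ×
        (W (Fin b) × W (Fin a)) => inv (fil v x.2.2)) := fun v =>
      invA.comp (filA.comp ((Computable.const v).pair cy))
    have n1 : ∀ v : Fin a, ComputablePred (fun x : Option (Syl (Fin a) (Fin b)) ×
        (W (Fin b) × W (Fin a)) => NearW c x.2.1 v x.1) := fun v =>
      cp_comp (hN a b c hW) (((Computable.fst.comp Computable.snd).pair
        (Computable.const v)).pair Computable.fst)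
    have t1 : ∀ v : Fin a, ComputablePred (fun x : Option (Syl (Fin a) (Fin b)) ×
        (W (Fin b) × W (Fin a)) => Triv (cV c) (x.2.2 ++ inv (fil v x.2.2))) := fun v =>
      cp_comp hV (Computable.list_append.comp cy (cf v))
    refine cand ?_ (cor (cand (call fun v => (n1 v).not) (call fun v => (t1 v).not))
      (cex fun v => cand (n1 v) (cand (t1 v).not (call fun v' => ?_))))
    · refine ComputablePred.not ?_
      exact cp_comp (hI a b c hW).1 ((Computable.fst.comp Computable.snd).pair Computable.fst)
    · by_cases hv : v' = v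
      · exact (cp_const True).of_eq fun x => by simp [hv]
      · have t2 : ComputablePred (fun x : Option (Syl (Fin a) (Fin b)) ×
            (W (Fin b) × W (Fin a)) =>
            ¬ Triv (cV c) (inv (fil v x.2.2) ++ x.2.2 ++ inv (fil v' x.2.2))) :=
          (cp_comp hV (Computable.list_append.comp
            (Computable.list_append.comp (cf v) cy) (cf v'))).not
        exact t2.of_eq fun x => by simp [hv]
  -- lines of the second kind
  have P3 : ComputablePred (fun x : Option (Syl (Fin a) (Fin b)) ×
      (W (Fin b) × Fin a × Fin b × W ℕ) =>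
      c (.inl x.2.2.1) (.inr x.2.2.2.1) ≠ 0 ∧ ¬ InDL c x.2.1 x.2.2.1 x.2.2.2.1 x.1 ∧
      ((¬ MeetL c x.2.1 x.2.2.1 x.2.2.2.1 x.1 ∧
          cond1 (c (.inl x.2.2.1) (.inr x.2.2.2.1)) x.2.2.2.2) ∨
       (MeetL c x.2.1 x.2.2.1 x.2.2.2.1 x.1 ∧ cond2 (c (.inl x.2.2.1) (.inr x.2.2.2.1))
          (expo x.2.2.2.1 (inv x.2.1 ++ gOf x.1)) x.2.2.2.2))) := by
    have cy : Computable (fun x : Option (Syl (Fin a) (Fin b)) ×
      (W (Fin b) × Fin a × Fin b × W ℕ) => x.2.2.2.2) :=
      Computable.snd.comp (Computable.snd.comp (Computable.snd.comp Computable.snd))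
    have cg : Computable (fun x : Option (Syl (Fin a) (Fin b)) ×
      (W (Fin b) × Fin a × Fin b × W ℕ) => x.2.1) := Computable.fst.comp Computable.snd
    have cu : Computable (fun x : Option (Syl (Fin a) (Fin b)) ×
      (W (Fin b) × Fin a × Fin b × W ℕ) => inv x.2.1 ++ gOf x.1) :=
      Computable.list_append.comp (invB.comp cg) ((comp_gOf a b).comp Computable.fst)
    have key : ComputablePred (fun x : Option (Syl (Fin a) (Fin b)) ×
        (W (Fin b) × Fin a × Fin b × W ℕ) => ∃ v0 : Fin a, ∃ w0 : Fin b,
        (x.2.2.1 = v0 ∧ x.2.2.2.1 = w0) ∧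
        (c (.inl v0) (.inr w0) ≠ 0 ∧ ¬ InDL c x.2.1 v0 w0 x.1 ∧
        ((¬ MeetL c x.2.1 v0 w0 x.1 ∧ cond1 (c (.inl v0) (.inr w0)) x.2.2.2.2) ∨
        (MeetL c x.2.1 v0 w0 x.1 ∧ cond2 (c (.inl v0) (.inr w0))
          (expo w0 (inv x.2.1 ++ gOf x.1)) x.2.2.2.2)))) := by
      refine cex fun v0 => cex fun w0 => cand (cand ?_ ?_) ?_
      · exact cp_eq (Computable.fst.comp (Computable.snd.comp Computable.snd)) v0
      · exact cp_eq (Computable.fst.comp (Computable.snd.comp
          (Computable.snd.comp Computable.snd))) w0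
      · by_cases hk : c (.inl v0) (.inr w0) = 0
        · exact (cp_const False).of_eq fun x => by simp [hk]
        · have hk2 : 2 ≤ c (.inl v0) (.inr w0) := by
            have := hcr v0 w0
            omega
          have m1 : ComputablePred (fun x : Option (Syl (Fin a) (Fin b)) ×
              (W (Fin b) × Fin a × Fin b × W ℕ) => MeetL c x.2.1 v0 w0 x.1) :=
            cp_comp (hM a b c hW) ((cg.pair (Computable.const (v0, w0))).pair Computable.fst)
          refine cand (cp_const _) (cand ?_ (cor (cand m1.not ?_) (cand m1 ?_)))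
          · refine ComputablePred.not ?_
            exact cp_comp (hI a b c hW).2
              ((cg.pair (Computable.const (v0, w0))).pair Computable.fst)
          · exact cp_comp (h1 _ hk2) cy
          · exact cp_comp (h2 _ hk2) ((cntB.comp ((Computable.const w0).pair cu)).pair cy)
    refine key.of_eq fun x => ?_
    constructor
    · rintro ⟨v0, w0, ⟨rfl, rfl⟩, h⟩
      exact h
    · intro h
      exact ⟨_, _, ⟨rfl, rfl⟩, h⟩
  have P1' : ComputablePred (fun x : Option (Syl (Fin a) (Fin b)) ×
      (W (Fin b) × Fin a × Bool × ℕ) => AdmW c x.1 (.inl x.2)) := P1.of_eq fun x => Iff.rfl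
  have P2' : ComputablePred (fun x : Option (Syl (Fin a) (Fin b)) × (W (Fin b) × W (Fin a)) =>
      AdmW c x.1 (.inr (.inl x.2))) := P2.of_eq fun x => Iff.rfl
  have P3' : ComputablePred (fun x : Option (Syl (Fin a) (Fin b)) ×
      (W (Fin b) × Fin a × Fin b × W ℕ) => AdmW c x.1 (.inr (.inr x.2))) :=
    P3.of_eq fun x => Iff.rfl
  have P23 : ComputablePred (fun x : Option (Syl (Fin a) (Fin b)) ×
      ((W (Fin b) × W (Fin a)) ⊕ (W (Fin b) × Fin a × Fin b × W ℕ)) =>
      AdmW c x.1 (.inr x.2)) := by
    refine (cp_sum (p := fun s u => AdmW c s (.inr (.inl u)))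
      (q := fun s u => AdmW c s (.inr (.inr u))) P2' P3').of_eq fun x => ?_
    rcases x with ⟨s, (u | u)⟩ <;> rfl
  refine (cp_sum (p := fun s u => AdmW c s (.inl u))
      (q := fun s u => AdmW c s (.inr u)) P1' P23).of_eq fun x => ?_
  rcases x with ⟨s, (u | u)⟩ <;> rfl

end Pool.Agent.H484R2.EAADMC
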